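import Pool.Agent.H50.LV.Targets

/-!
# LV part (e), row LOC: preparations (helper50)
-/

set_option autoImplicit false

open Finset MeasureTheory Pool.Agent.H24.CL Pool.Agent.H24.LV Pool.Agent.H50.LV

namespace Pool.Agent.H50.LVE

lemma one_le_Lam {k : ℕ} (c : Fin k → ℝ) : 1 ≤ Lam c := by
  unfold Lam
  have : 0 ≤ ∑ i : Fin k, if i.val = 0 then 0 else |c i| :=
    sum_nonneg fun i _ => by split_ifs <;> positivity
  linarith

lemma Lam_le {k : ℕ} (c : Fin k → ℝ) {D : ℝ} (hD : 0 ≤ D) (h : ∀ i, |c i| ≤ D) :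
    Lam c ≤ 1 + k * D := by
  unfold Lam
  have : ∑ i : Fin k, (if i.val = 0 then 0 else |c i|) ≤ ∑ _i : Fin k, D :=
    sum_le_sum fun i _ => by split_ifs; exacts [hD, h i]
  rw [sum_const, card_univ, Fintype.card_fin, nsmul_eq_mul] at this
  linarith

/-- the logarithm is small -/
lemma log_small (C₂ ε X R : ℝ) (hC₂ : 1 ≤ C₂) (hε : 0 < ε) (hX : 1 ≤ X) (hR : 1 ≤ R) (hRX : R ≤ X) :
    1 + Real.log (2 * (C₂ * X ^ 3) * R + 2) ≤
      (1 + Real.log (2 * C₂ + 2) + 8 / ε) * X ^ (ε / 2) := by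
  have hX0 : 0 < X := by linarith
  have h1 : 2 * (C₂ * X ^ 3) * R + 2 ≤ (2 * C₂ + 2) * X ^ 4 := by
    have h2 : C₂ * X ^ 3 * R ≤ C₂ * X ^ 3 * X :=
      mul_le_mul_of_nonneg_left hRX (by positivity)
    have h3 : 1 ≤ X ^ 4 := one_le_pow₀ hX
    nlinarith
  have hpos : 0 < 2 * (C₂ * X ^ 3) * R + 2 := by positivity
  have h4 : Real.log (2 * (C₂ * X ^ 3) * R + 2) ≤ Real.log (2 * C₂ + 2) + 4 * Real.log X := by
    refine (Real.log_le_log hpos h1).trans ?_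
    rw [Real.log_mul (by positivity) (by positivity), Real.log_pow]
    norm_num
  have h5 : Real.log X ≤ X ^ (ε / 2) / (ε / 2) := Real.log_le_rpow_div hX0.le (by positivity)
  have h6 : 1 ≤ X ^ (ε / 2) := Real.one_le_rpow hX (by positivity)
  have h7 : 0 ≤ Real.log (2 * C₂ + 2) := Real.log_nonneg (by linarith)
  have h8 : X ^ (ε / 2) / (ε / 2) * 4 = 8 / ε * X ^ (ε / 2) := by
    field_simp
    ring
  nlinarith

/-- the measure of the set -/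
lemma meas {k n m : ℕ} (h5 : T_MKV) (h6 : T_CIN) (s ε ε₁ C₀ C₁ M' R L : ℝ)
    (N q : ℕ) (a : Fin n → ℝ) (T : Fin n → ℕ) (ζ : Fin n → Fin m → UnitAddCircle) (hs : 2 ≤ s)
    (hε : 0 < ε) (hε₁s : ε₁ * s ≤ ε) (hC₀ : 1 ≤ C₀) (hC₁ : 1 ≤ C₁) (hM'0 : 0 < M')
    (hN0 : (0 : ℝ) < N) (hq1 : (1 : ℝ) ≤ q) (hqR : (q : ℝ) ≤ R) (hL0 : 0 < L)
    (ha : ∀ c, 0 ≤ a c) (hT1 : ∀ c, 1 ≤ T c) (hS₁ : ∑ c, a c * T c ≤ C₀ * (q : ℝ) ^ ε₁)
    (hS₂ : ∑ c, a c ≤ C₀ * (q : ℝ) ^ (ε₁ - 2 / (k : ℝ))) :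
    volume.real {y : UnitAddCircle | 1 / (2 * M') ≤ ∑ j : Fin n × Fin m,
      (C₁ * a j.1 * L ^ (-(2 / (k : ℝ)))) *
        (1 / (1 + (L ^ (-(2 / (k : ℝ))) * N / T j.1) * ‖T j.1 • y + ζ j.1 j.2‖))} ≤
      (2 ^ s * (C₁ * (m + 1) * C₀) ^ (s - 1) * (2 * C₁ * (m + 1) * C₀)) * R ^ ε * M' ^ s *
        ((q : ℝ) * L) ^ (-(2 / (k : ℝ) * (s - 1))) / N := by
  have hq0 : (0 : ℝ) < q := by linarith
  have hC₁0 : 0 < C₁ := by linarith
  have hC₀0 : 0 < C₀ := by linarith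
  have hT1' : ∀ c, (1 : ℝ) ≤ T c := fun c => by exact_mod_cast hT1 c
  set A : ℝ := L ^ (-(2 / (k : ℝ))) with hAdef
  have hA0 : 0 < A := Real.rpow_pos_of_pos hL0 _
  have hBc0 : ∀ c, 0 < A * N / T c := fun c => by
    have := hT1' c
    positivity
  have hden : ∀ (j : Fin n × Fin m) (y : UnitAddCircle),
      1 ≤ 1 + (A * N / T j.1) * ‖T j.1 • y + ζ j.1 j.2‖ := fun j y => by
    have := hBc0 j.1
    have : 0 ≤ (A * N / T j.1) * ‖T j.1 • y + ζ j.1 j.2‖ := by positivity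
    linarith
  set W : ℝ := C₁ * (m + 1) * C₀ * A * (q : ℝ) ^ (ε₁ - 2 / (k : ℝ)) with hW
  have hqp : 0 < (q : ℝ) ^ (ε₁ - 2 / (k : ℝ)) := Real.rpow_pos_of_pos hq0 _
  have hW0 : 0 < W := by positivity
  have hw0 : ∀ j : Fin n × Fin m, 0 ≤ C₁ * a j.1 * A := fun j => by
    have := ha j.1
    positivity
  have hmk := h5 (Fin n × Fin m) (fun j => C₁ * a j.1 * A) (fun j => 2 / (A * N / T j.1))
    (fun j y => 1 / (1 + (A * N / T j.1) * ‖T j.1 • y + ζ j.1 j.2‖)) s (1 / (2 * M')) W hw0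
    (fun j => by
      refine Continuous.div continuous_const (by fun_prop) fun y => ?_
      have := hden j y
      positivity)
    (fun j y => by
      have := hden j y
      refine ⟨by positivity, ?_⟩
      exact div_le_one_of_le₀ this (by linarith))
    (fun j => h6 (T j.1) (A * N / T j.1) (ζ j.1 j.2) (hT1 j.1) (hBc0 j.1)) hs (by positivity)
    hW0 (by
      rw [Fintype.sum_prod_type]
      simp only [sum_const, card_univ, Fintype.card_fin, nsmul_eq_mul]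
      rw [← mul_sum, ← sum_mul, ← mul_sum, hW]
      have e1 : (m : ℝ) * (C₁ * (∑ c, a c) * A) ≤
          (m : ℝ) * (C₁ * (C₀ * (q : ℝ) ^ (ε₁ - 2 / (k : ℝ))) * A) := by
        gcongr
      refine e1.trans ?_
      have e2 : (m : ℝ) * (C₁ * (C₀ * (q : ℝ) ^ (ε₁ - 2 / (k : ℝ))) * A) +
          C₁ * C₀ * A * (q : ℝ) ^ (ε₁ - 2 / (k : ℝ)) =
          C₁ * (m + 1) * C₀ * A * (q : ℝ) ^ (ε₁ - 2 / (k : ℝ)) := by ring
      have e3 : 0 ≤ C₁ * C₀ * A * (q : ℝ) ^ (ε₁ - 2 / (k : ℝ)) := by positivity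
      linarith)
  refine hmk.trans ?_
  have hsum : ∑ j : Fin n × Fin m, (C₁ * a j.1 * A) * (2 / (A * N / T j.1)) ≤
      2 * C₁ * (m + 1) * C₀ * (q : ℝ) ^ ε₁ / N := by
    rw [Fintype.sum_prod_type]
    simp only [sum_const, card_univ, Fintype.card_fin, nsmul_eq_mul]
    have e1 : ∀ c, (m : ℝ) * (C₁ * a c * A * (2 / (A * N / T c))) =
        (2 * C₁ * m / N) * (a c * T c) := fun c => by
      have := hT1' c
      have h0 : (T c : ℝ) ≠ 0 := by positivity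
      field_simp
    simp only [e1]
    rw [← mul_sum]
    have e2 : 2 * C₁ * m / N * ∑ c, a c * T c ≤
        2 * C₁ * m / N * (C₀ * (q : ℝ) ^ ε₁) :=
      mul_le_mul_of_nonneg_left hS₁ (by positivity)
    refine e2.trans ?_
    rw [div_mul_eq_mul_div]
    gcongr ?_ / _
    have : 0 ≤ 2 * C₁ * C₀ * (q : ℝ) ^ ε₁ := by positivity
    nlinarith
  have hM2 : (1 / (2 * M')) ^ (-s) = 2 ^ s * M' ^ s := by
    rw [Real.rpow_neg (by positivity), one_div, Real.inv_rpow (by positivity), inv_inv,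
      Real.mul_rpow (by norm_num) hM'0.le]
  have hWs : W ^ (s - 1) = (C₁ * (m + 1) * C₀) ^ (s - 1) *
      L ^ (-(2 / (k : ℝ) * (s - 1))) * (q : ℝ) ^ ((ε₁ - 2 / (k : ℝ)) * (s - 1)) := by
    rw [hW, Real.mul_rpow (by positivity) (by positivity), Real.mul_rpow (by positivity)
      (by positivity), ← Real.rpow_mul hq0.le, hAdef, ← Real.rpow_mul hL0.le]
    ring_nf
  have e1 : (q : ℝ) ^ ((ε₁ - 2 / (k : ℝ)) * (s - 1)) * (q : ℝ) ^ ε₁ =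
      (q : ℝ) ^ (ε₁ * s) * (q : ℝ) ^ (-(2 / (k : ℝ) * (s - 1))) := by
    rw [← Real.rpow_add hq0, ← Real.rpow_add hq0]
    ring_nf
  have e2 : (q : ℝ) ^ (ε₁ * s) ≤ R ^ ε :=
    (Real.rpow_le_rpow_of_exponent_le hq1 hε₁s).trans (Real.rpow_le_rpow hq0.le hqR hε.le)
  have e3 : (q : ℝ) ^ (ε₁ * s) * (q : ℝ) ^ (-(2 / (k : ℝ) * (s - 1))) ≤
      R ^ ε * (q : ℝ) ^ (-(2 / (k : ℝ) * (s - 1))) :=
    mul_le_mul_of_nonneg_right e2 (by positivity)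
  set G : ℝ := 2 ^ s * M' ^ s * ((C₁ * (m + 1) * C₀) ^ (s - 1) *
    L ^ (-(2 / (k : ℝ) * (s - 1)))) * (2 * C₁ * (m + 1) * C₀ / N) with hG
  have hG0 : 0 ≤ G := by positivity
  have e4 : (1 / (2 * M')) ^ (-s) * W ^ (s - 1) * (2 * C₁ * (m + 1) * C₀ * (q : ℝ) ^ ε₁ / N) =
      G * ((q : ℝ) ^ ((ε₁ - 2 / (k : ℝ)) * (s - 1)) * (q : ℝ) ^ ε₁) := by
    rw [hM2, hWs, hG]
    ring
  have e5 : (2 ^ s * (C₁ * (m + 1) * C₀) ^ (s - 1) * (2 * C₁ * (m + 1) * C₀)) * R ^ ε * M' ^ s *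
      ((q : ℝ) * L) ^ (-(2 / (k : ℝ) * (s - 1))) / N =
      G * (R ^ ε * (q : ℝ) ^ (-(2 / (k : ℝ) * (s - 1)))) := by
    rw [Real.mul_rpow hq0.le hL0.le, hG]
    ring
  rw [e5]
  refine (mul_le_mul_of_nonneg_left hsum (by positivity)).trans ?_
  rw [e4, e1]
  exact mul_le_mul_of_nonneg_left e3 hG0

end Pool.Agent.H50.LVE
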