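import Pool.Agent.H50.LVE.LOCa

/-!
# LV part (e), row LOC: the points seen by the functional for one cell (helper50)
-/

set_option autoImplicit false

open Finset MeasureTheory Pool.Agent.H24.CL Pool.Agent.H24.LV Pool.Agent.H50.LV

namespace Pool.Agent.H50.LVE

theorem pf_LOC (h1 : T_RMC) (h2 : T_GIS) (h3 : T_FUN) (h4 : T_BND) (h5 : T_MKV) (h6 : T_CIN)
    (h7 : Pool.Agent.H26.LV.T_ARI) : T_LOC := by
  intro k hk s ε hs hε
  obtain ⟨C₁, m, hC₁, hR⟩ := h1 k hk
  set ε₁ : ℝ := min ε 1 / (4 * s) with hε₁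
  have hs0 : 0 < s := by linarith
  have hmin : 0 < min ε 1 := lt_min hε one_pos
  have hε₁0 : 0 < ε₁ := by positivity
  have hε₁s : ε₁ * s = min ε 1 / 4 := by
    rw [hε₁]
    field_simp
  have hε₁le : ε₁ ≤ min ε 1 / 4 := by
    rw [← hε₁s]
    exact le_mul_of_one_le_right hε₁0.le (by linarith)
  have hε₁1 : ε₁ ≤ 1 := by linarith [min_le_right ε 1]
  have hε₁e : ε₁ ≤ ε / 4 := by linarith [min_le_left ε 1]
  obtain ⟨C₀, hC₀, hA⟩ := h7 k (by omega) ε₁ hε₁0
  have hk0 : (0 : ℝ) < k := by exact_mod_cast (by omega : 0 < k)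
  set C₂ : ℝ := 5 * k * C₁ + 200 * C₁ * C₀ with hC₂
  have hC₁0 : 0 < C₁ := by linarith
  have hC₀0 : 0 < C₀ := by linarith
  have hC₁C₀ : 1 ≤ C₁ * C₀ := one_le_mul_of_one_le_of_one_le hC₁ hC₀
  have hC₂1 : 1 ≤ C₂ := by
    have : 0 ≤ 5 * k * C₁ := by positivity
    linarith
  set C₃ : ℝ := 1 + Real.log (2 * C₂ + 2) + 8 / ε with hC₃
  have hlog0 : 0 ≤ Real.log (2 * C₂ + 2) := Real.log_nonneg (by linarith)
  have hC₃1 : 1 ≤ C₃ := by
    have : 0 ≤ 8 / ε := by positivity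
    linarith
  set E : ℝ := 2 ^ s * (C₁ * (m + 1) * C₀) ^ (s - 1) * (2 * C₁ * (m + 1) * C₀) with hE
  have hE0 : 0 ≤ E := by positivity
  refine ⟨1 + 32 * C₁ * (m + 1) * C₀ * C₃ + E, ?_, ?_⟩
  · have : 0 ≤ 32 * C₁ * (m + 1) * C₀ * C₃ := by positivity
    linarith
  intro N q R M' f c₀ hN hq hqR hM' hCN hP hc₀
  have hq1 : (1 : ℝ) ≤ q := by exact_mod_cast hq
  have hq0 : (0 : ℝ) < q := by linarith
  have hR1 : 1 ≤ R := hq1.trans hqR
  have hR0 : 0 < R := by linarith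
  have hM'0 : 0 < M' := by linarith
  have hN1 : (1 : ℝ) ≤ N := by exact_mod_cast hN
  have hN0 : (0 : ℝ) < N := by linarith
  obtain ⟨n, a, T, x, ha, hAl, hS₁, hS₂⟩ := hA q f hq hP
  obtain ⟨τ₀, hτ₀⟩ := hR c₀
  set X : ℝ := R * M' with hX
  have hX1 : 1 ≤ X := one_le_mul_of_one_le_of_one_le hR1 hM'
  have hX0 : 0 < X := by linarith
  have hRX : R ≤ X := by
    rw [hX]
    exact le_mul_of_one_le_right hR0.le hM'
  have hM'X : M' ≤ X := by
    rw [hX]
    exact le_mul_of_one_le_left hM'0.le hR1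
  set Z : ℝ := C₂ * X ^ 3 with hZ
  have hZ1 : 1 ≤ Z := by
    rw [hZ]
    exact one_le_mul_of_one_le_of_one_le hC₂1 (one_le_pow₀ hX1)
  have hZ0 : 0 < Z := by linarith
  have hL1 := one_le_Lam c₀
  have hL0 : 0 < Lam c₀ := by linarith
  have hLle : Lam c₀ ≤ 5 * k * R := by
    have h := Lam_le c₀ (by linarith : (0 : ℝ) ≤ R + 3) hc₀
    have hk3 : (3 : ℝ) ≤ k := by exact_mod_cast hk
    have h12 : (k : ℝ) ≤ k * R := le_mul_of_one_le_right hk0.le hR1
    linarith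
  have hCZ : C₁ * Lam c₀ ≤ Z := by
    rw [hZ, hC₂]
    have h8 : C₁ * Lam c₀ ≤ C₁ * (5 * k * R) := mul_le_mul_of_nonneg_left hLle hC₁0.le
    have h9 : R ≤ X ^ 3 := hRX.trans (le_self_pow₀ hX1 (by norm_num))
    have h10 : (5 * k * C₁) * R ≤ (5 * k * C₁) * X ^ 3 :=
      mul_le_mul_of_nonneg_left h9 (by positivity)
    have h11 : 0 ≤ 200 * C₁ * C₀ * X ^ 3 := by positivity
    rw [add_mul]
    linarith
  have hA0 : 0 < Am c₀ := Real.rpow_pos_of_pos hL0 _
  set A : ℝ := Am c₀ with hAdef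
  -- the bound for the functional
  have hT1 : ∀ c, 1 ≤ T c := fun c => Nat.pos_of_dvd_of_pos (ha c).2 hq
  have hTq : ∀ c, T c ≤ q := fun c => Nat.le_of_dvd hq (ha c).2
  have hTR : ∀ c, (T c : ℝ) ≤ R := fun c => le_trans (by exact_mod_cast hTq c) hqR
  have hT1' : ∀ c, (1 : ℝ) ≤ T c := fun c => by exact_mod_cast hT1 c
  have hqe : (q : ℝ) ^ ε₁ ≤ R ^ ε₁ := Real.rpow_le_rpow hq0.le hqR hε₁0.le
  have haT : ∑ c, a c * T c ≤ C₀ * R ^ ε₁ :=
    hS₁.trans (mul_le_mul_of_nonneg_left hqe hC₀0.le)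
  have haa : ∑ c, a c ≤ C₀ * R ^ ε₁ := by
    refine le_trans (sum_le_sum fun c _ => ?_) haT
    have := mul_le_mul_of_nonneg_left (hT1' c) (ha c).1
    linarith
  set ζ : Fin n → Fin m → UnitAddCircle := fun c i =>
    ((T c * ((x c : ℝ) / q - τ₀ i / N) : ℝ) : UnitAddCircle) with hζ
  set Bc : Fin n → ℝ := fun c => A * N / T c with hBc
  have hBc0 : ∀ c, 0 < Bc c := fun c => by
    have := hT1' c
    rw [hBc]
    positivity
  set w : Fin n × Fin m → ℝ := fun j => C₁ * a j.1 * A with hw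
  set u : Fin n × Fin m → UnitAddCircle → ℝ := fun j y =>
    1 / (1 + Bc j.1 * ‖T j.1 • y + ζ j.1 j.2‖) with hu
  have hw0 : ∀ j, 0 ≤ w j := fun j => by
    have := (ha j.1).1
    rw [hw]
    positivity
  refine ⟨{y | 1 / (2 * M') ≤ ∑ j, w j * u j y}, ?_, ?_⟩
  · -- the measure
    have h := meas (m := m) h5 h6 s ε ε₁ C₀ C₁ M' R (Lam c₀) N q a T ζ hs hε (by
      rw [hε₁s]
      linarith [min_le_left ε 1]) hC₀ hC₁ hM'0 hN0 hq1 hqR hL0 (fun c => (ha c).1) hT1 hS₁ hS₂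
    refine h.trans ?_
    have h32 : 0 ≤ 32 * C₁ * (m + 1) * C₀ * C₃ := by positivity
    have hE1 : E ≤ 1 + 32 * C₁ * (m + 1) * C₀ * C₃ + E := by linarith
    have hRM : 0 ≤ R ^ ε * M' ^ s * ((q : ℝ) * Lam c₀) ^ (-(2 / (k : ℝ) * (s - 1))) / N := by
      positivity
    have := mul_le_mul_of_nonneg_right hE1 hRM
    calc _ = E * (R ^ ε * M' ^ s * ((q : ℝ) * Lam c₀) ^ (-(2 / (k : ℝ) * (s - 1))) / N) := by
          rw [hE]
          ring
      _ ≤ _ := this
      _ = _ := by ring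
  · intro η τ ξ hη hτ1 hτ2 hVF
    show 1 / (2 * M') ≤ ∑ j, w j * u j (ξ : UnitAddCircle)
    have hg : ∀ s' : ℝ, gI N η τ s' ≤ hh C₁ A Z τ₀ (N * s') := by
      intro s'
      rw [h2 k N η τ s' hN]
      have b1 : -1 ≤ τ / N := by
        rw [le_div_iff₀ hN0]
        linarith
      have b2 : τ / N + 1 ≤ 1 := by
        have : τ / N ≤ 0 := div_nonpos_of_nonpos_of_nonneg hτ2 hN0.le
        linarith
      have h := hτ₀ (fun i : Fin k => η i * (N : ℝ) ^ (i.val + 1)) hη (N * s') (τ / N)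
        (τ / N + 1) b1 (by linarith) b2
      unfold hh
      split_ifs with hc
      · exact h.1
      · exact h.2 (hCZ.trans (not_le.1 hc).le)
    have hh0 : ∀ t, 0 ≤ hh C₁ A Z τ₀ t := by
      intro t
      unfold hh
      split_ifs
      · refine mul_nonneg hC₁0.le (sum_nonneg fun i _ => ?_)
        have : 0 ≤ A * |t - τ₀ i| := by positivity
        positivity
      · positivity
    set Lg : ℝ := 1 + Real.log (2 * Z * R + 2) with hLg
    set B : Fin n → ℝ := fun c =>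
      C₁ * ∑ i, A / (1 + A * N / T c * ‖((T c * (ξ + (x c : ℝ) / q - τ₀ i / N) : ℝ) :
        UnitAddCircle)‖) + 8 * C₁ * m * (T c / N) * Lg + 50 * C₁ * R / Z with hB
    have hfun := h3 k q N f η τ ξ (hh C₁ A Z τ₀) n a T x B hq hN hh0 hg ha hAl (fun c s' => by
      have := h4 C₁ A Z N R (ξ + (x c : ℝ) / q) (T c) m τ₀ s' hC₁ hA0 hZ1 hN1 (hT1 c) (hTR c)
      exact this)
    have hmain : ∀ c, a c * B c = (∑ i, w (c, i) * u (c, i) (ξ : UnitAddCircle)) +
        8 * C₁ * m / N * Lg * (a c * T c) + 50 * C₁ * R / Z * a c := by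
      intro c
      have e1 : ∀ i : Fin m, w (c, i) * u (c, i) (ξ : UnitAddCircle) =
          a c * (C₁ * (A / (1 + A * N / T c * ‖((T c * (ξ + (x c : ℝ) / q - τ₀ i / N) : ℝ) :
            UnitAddCircle)‖))) := by
        intro i
        have e2 : T c • (ξ : UnitAddCircle) + ζ c i =
            ((T c * (ξ + (x c : ℝ) / q - τ₀ i / N) : ℝ) : UnitAddCircle) := by
          rw [hζ]
          simp only
          rw [← AddCircle.coe_nsmul, ← AddCircle.coe_add, nsmul_eq_mul]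
          ring_nf
        simp only [hw, hu, hBc]
        rw [e2]
        ring
      simp only [e1]
      rw [← mul_sum, ← mul_sum, hB]
      ring
    have hVF2 : VF q f N η τ ξ ≤ ∑ j, w j * u j (ξ : UnitAddCircle) +
        8 * C₁ * m / N * Lg * ∑ c, a c * T c + 50 * C₁ * R / Z * ∑ c, a c := by
      refine hfun.trans (le_of_eq ?_)
      simp only [hmain]
      rw [sum_add_distrib, sum_add_distrib, Fintype.sum_prod_type, ← mul_sum, ← mul_sum]
    -- the two small terms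
    have hXe : 0 < X ^ ε := Real.rpow_pos_of_pos hX0 _
    have hLg1 : Lg ≤ C₃ * X ^ (ε / 2) := by
      have := log_small C₂ ε X R hC₂1 hε hX1 hR1 hRX
      rw [hLg, hZ, hC₃]
      exact this
    have hLg0 : 0 ≤ Lg := by
      rw [hLg]
      have : 0 ≤ Real.log (2 * Z * R + 2) := Real.log_nonneg (by
        have : 0 ≤ 2 * Z * R := by positivity
        linarith)
      linarith
    have hReX : R ^ ε₁ ≤ X ^ (ε / 2) :=
      (Real.rpow_le_rpow hR0.le hRX hε₁0.le).trans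
        (Real.rpow_le_rpow_of_exponent_le hX1 (by linarith))
    have hXX : X ^ (ε / 2) * X ^ (ε / 2) = X ^ ε := by
      rw [← Real.rpow_add hX0]
      ring_nf
    have small1 : 8 * C₁ * m / N * Lg * ∑ c, a c * T c ≤ 1 / (4 * M') := by
      have e1 : 8 * C₁ * m / N * Lg * ∑ c, a c * T c ≤
          8 * C₁ * m / N * (C₃ * X ^ (ε / 2)) * (C₀ * X ^ (ε / 2)) := by
        have e2 : ∑ c, a c * T c ≤ C₀ * X ^ (ε / 2) :=
          haT.trans (mul_le_mul_of_nonneg_left hReX hC₀0.le)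
        have e3 : 0 ≤ ∑ c, a c * (T c : ℝ) := sum_nonneg fun c _ =>
          mul_nonneg (ha c).1 (by positivity)
        have e4 : 0 < X ^ (ε / 2) := Real.rpow_pos_of_pos hX0 _
        gcongr
      refine e1.trans ?_
      have e5 : 8 * C₁ * m / N * (C₃ * X ^ (ε / 2)) * (C₀ * X ^ (ε / 2)) =
          8 * C₁ * m * C₀ * C₃ * X ^ ε / N := by
        rw [← hXX]
        ring
      rw [e5, div_le_div_iff₀ hN0 (by positivity)]
      have e6 : 32 * C₁ * (m + 1) * C₀ * C₃ * X ^ ε * M' ≤ N := by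
        refine le_trans ?_ hCN
        have : 0 ≤ 1 + E := by linarith
        gcongr
        linarith
      have e7 : 0 ≤ 32 * C₁ * C₀ * C₃ * X ^ ε * M' := by positivity
      have e8 : 8 * C₁ * m * C₀ * C₃ * X ^ ε * (4 * M') + 32 * C₁ * C₀ * C₃ * X ^ ε * M' =
        32 * C₁ * (m + 1) * C₀ * C₃ * X ^ ε * M' := by ring
      linarith
    have small2 : 50 * C₁ * R / Z * ∑ c, a c ≤ 1 / (4 * M') := by
      have hRe : R ^ ε₁ ≤ R := by
        have := Real.rpow_le_rpow_of_exponent_le hR1 hε₁1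
        rwa [Real.rpow_one] at this
      have e1 : 50 * C₁ * R / Z * ∑ c, a c ≤ 50 * C₁ * R / Z * (C₀ * R) := by
        have e2 : ∑ c, a c ≤ C₀ * R := haa.trans (mul_le_mul_of_nonneg_left hRe hC₀0.le)
        exact mul_le_mul_of_nonneg_left e2 (by positivity)
      refine e1.trans ?_
      rw [div_mul_eq_mul_div, div_le_div_iff₀ hZ0 (by positivity), one_mul]
      have e3 : 200 * C₁ * C₀ * X ^ 3 ≤ Z := by
        rw [hZ, hC₂]
        have : 0 ≤ 5 * k * C₁ * X ^ 3 := by positivity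
        rw [add_mul]
        linarith
      have e4 : R * R * M' ≤ X ^ 3 := by
        have e5 : X ^ 3 = X * X * X := by ring
        rw [e5]
        gcongr
      have e6 : 50 * C₁ * R * (C₀ * R) * (4 * M') = 200 * C₁ * C₀ * (R * R * M') := by ring
      rw [e6]
      refine le_trans ?_ e3
      exact mul_le_mul_of_nonneg_left e4 (by positivity)
    have e : 1 / M' = 1 / (2 * M') + 1 / (4 * M') + 1 / (4 * M') := by
      field_simp
      norm_num
    linarith

end Pool.Agent.H50.LVE
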