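import Pool.Agent.H50.LV.Targets

/-!
# LV part (e), row ME: the measure of the points seen by the functional (helper50)
-/

set_option autoImplicit false

open Finset MeasureTheory Pool.Agent.H24.CL Pool.Agent.H24.LV Pool.Agent.H50.LV

namespace Pool.Agent.H50.LVE

lemma card_Fq (k q : ℕ) (hk : 1 ≤ k) : (Fq k q).card = q ^ (k - 1) := by
  obtain ⟨j, rfl⟩ : ∃ j, k = j + 1 := ⟨k - 1, by omega⟩
  unfold Fq
  rw [Fintype.card_piFinset, Fin.prod_univ_succ]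
  have h : ∀ i : Fin j, (if (Fin.succ i).val = 0 then ({0} : Finset ℤ) else Ico (0 : ℤ) q).card =
      q := by
    intro i
    rw [if_neg (by rw [Fin.val_succ]; omega)]
    simp
  simp only [h]
  simp

lemma one_le_Lam' {k : ℕ} (c : Fin k → ℝ) : 1 ≤ Lam c := by
  unfold Lam
  have : 0 ≤ ∑ i : Fin k, if i.val = 0 then 0 else |c i| :=
    sum_nonneg fun i _ => by split_ifs <;> positivity
  linarith

theorem pf_ME (h1 : T_LOC) (h2 : T_QSM) (h3 : T_CSM) (h4 : T_COV) (h5 : T_BXM) : T_ME := by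
  intro k hk s ε hs hε
  have hk3 : (3 : ℝ) ≤ k := by exact_mod_cast hk
  have hk0 : (0 : ℝ) < k := by linarith
  set κ : ℝ := 2 / (k : ℝ) * (s - 1) with hκ
  have hκk : (k : ℝ) < κ := by
    rw [hκ, div_mul_eq_mul_div, lt_div_iff₀ hk0]
    nlinarith
  have hs2 : 2 ≤ s := by nlinarith
  obtain ⟨C₁, hC₁, hL⟩ := h1 k hk s ε hs2 hε
  obtain ⟨C₂, hC₂, hQ⟩ := h2 (κ - k + 1) (by linarith)
  obtain ⟨C₃, hC₃, hS⟩ := h3 k (by omega) κ (by linarith)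
  refine ⟨C₁ * C₂ * C₃, one_le_mul_of_one_le_of_one_le
    (one_le_mul_of_one_le_of_one_le hC₁ hC₂) hC₃, ?_⟩
  intro N R M' hN hR hM' hCN
  have hN0 : (0 : ℝ) < N := by exact_mod_cast hN
  have hNK : (0 : ℝ) < (N : ℝ) ^ (KN k) := by positivity
  have hC₁0 : 0 < C₁ := by linarith
  have hR0 : 0 < R := by linarith
  have hM0 : 0 < M' := by linarith
  have hCN' : C₁ * (R * M') ^ ε * M' ≤ N := by
    refine le_trans ?_ hCN
    have h6 : C₁ ≤ C₁ * C₂ * C₃ := by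
      have := one_le_mul_of_one_le_of_one_le hC₂ hC₃
      rw [mul_assoc]
      exact le_mul_of_one_le_right hC₁0.le this
    gcongr
  have hex : ∀ (q : ℕ) (f c : Fin k → ℤ), ∃ S : Set UnitAddCircle,
      (1 ≤ q ∧ (q : ℝ) ≤ R ∧ Prim q f ∧ (∀ i, |((c i : ℤ) : ℝ)| ≤ R + 3)) →
      (volume.real S ≤ C₁ * R ^ ε * M' ^ s *
        ((q : ℝ) * Lam (fun i => ((c i : ℤ) : ℝ))) ^ (-κ) / N ∧
      ∀ (η : Fin k → ℝ) (τ ξ : ℝ), (∀ i : Fin k, i.val ≠ 0 → |η i * (N : ℝ) ^ (i.val + 1) -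
        ((c i : ℤ) : ℝ)| ≤ 1) → -1 ≤ τ → τ ≤ 0 → 1 / M' ≤ VF q f N η τ ξ →
        (ξ : UnitAddCircle) ∈ S) := by
    intro q f c
    by_cases hc : 1 ≤ q ∧ (q : ℝ) ≤ R ∧ Prim q f ∧ (∀ i, |((c i : ℤ) : ℝ)| ≤ R + 3)
    · obtain ⟨S, hS1, hS2⟩ := hL N q R M' f (fun i => ((c i : ℤ) : ℝ)) hN hc.1 hc.2.1 hM' hCN'
        hc.2.2.1 hc.2.2.2
      exact ⟨S, fun _ => ⟨hS1, hS2⟩⟩
    · exact ⟨∅, fun h => absurd h hc⟩
  choose S hSS using hex
  have hDc : ∀ c ∈ Dc k (⌈R⌉₊ + 1), ∀ i, |((c i : ℤ) : ℝ)| ≤ R + 3 := by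
    intro c hc i
    unfold Dc at hc
    rw [Fintype.mem_piFinset] at hc
    have h6 := hc i
    have hceil : ((⌈R⌉₊ : ℕ) : ℝ) < R + 1 := Nat.ceil_lt_add_one hR0.le
    split_ifs at h6 with h7
    · rw [mem_singleton] at h6
      rw [h6]
      simp only [Int.cast_zero, abs_zero]
      linarith
    · rw [mem_Icc] at h6
      have h8 : |c i| ≤ ((⌈R⌉₊ + 1 : ℕ) : ℤ) := abs_le.2 h6
      have h9 : ((|c i| : ℤ) : ℝ) ≤ (((⌈R⌉₊ + 1 : ℕ) : ℤ) : ℝ) := by exact_mod_cast h8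
      push_cast at h9
      linarith
  have hcov := h4 k N R M' S hN hR (fun q f c hq hqR hP hc η τ ξ hη hτ1 hτ2 hV =>
    (hSS q f c ⟨hq, hqR, hP, hDc c hc⟩).2 η τ ξ hη hτ1 hτ2 hV)
  set G : ℝ := C₁ * R ^ ε * M' ^ s / (N : ℝ) ^ (KN k) with hG
  have hG0 : 0 ≤ G := by positivity
  have hbox : ∀ q ∈ Icc 1 ⌊R⌋₊, ∀ f ∈ Fq k q, ∀ c ∈ Dc k (⌈R⌉₊ + 1),
      (volume : Measure (X k)).real (Set.pi Set.univ (Bx N q f c {y | Prim q f ∧ y ∈ S q f c})) ≤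
        G * ((q : ℝ) ^ (-κ) * Lam (fun i => ((c i : ℤ) : ℝ)) ^ (-κ)) := by
    intro q hq f hf c hc
    rw [mem_Icc] at hq
    have hqR : (q : ℝ) ≤ R := (Nat.le_floor_iff hR0.le).1 hq.2
    have hq0 : (0 : ℝ) < q := by exact_mod_cast hq.1
    have hLam := one_le_Lam' (fun i => ((c i : ℤ) : ℝ))
    have hLam0 : 0 < Lam (fun i => ((c i : ℤ) : ℝ)) := by linarith
    refine (h5 k N q f c _ (by omega) hN).trans ?_
    by_cases hP : Prim q f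
    · have h6 := (hSS q f c ⟨hq.1, hqR, hP, hDc c hc⟩).1
      have h7 : {y | Prim q f ∧ y ∈ S q f c} = S q f c := by
        ext y
        simp [hP]
      rw [h7]
      calc volume.real (S q f c) * N / (N : ℝ) ^ (KN k)
          ≤ (C₁ * R ^ ε * M' ^ s *
            ((q : ℝ) * Lam (fun i => ((c i : ℤ) : ℝ))) ^ (-κ) / N) * N / (N : ℝ) ^ (KN k) := by
            gcongr
        _ = G * ((q : ℝ) ^ (-κ) * Lam (fun i => ((c i : ℤ) : ℝ)) ^ (-κ)) := by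
            rw [Real.mul_rpow hq0.le hLam0.le, hG]
            field_simp
    · have h7 : {y | Prim q f ∧ y ∈ S q f c} = ∅ := by
        ext y
        simp [hP]
      rw [h7]
      simp only [measureReal_empty, zero_mul, zero_div]
      positivity
  have hvol : volume.real (WS k N R M') ≤ ∑ q ∈ Icc 1 ⌊R⌋₊, ∑ f ∈ Fq k q,
      ∑ c ∈ Dc k (⌈R⌉₊ + 1), G * ((q : ℝ) ^ (-κ) * Lam (fun i => ((c i : ℤ) : ℝ)) ^ (-κ)) := by
    refine (measureReal_mono hcov (measure_ne_top _ _)).trans ?_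
    refine (measureReal_biUnion_finset_le _ _).trans ?_
    refine sum_le_sum fun q hq => ?_
    refine (measureReal_biUnion_finset_le _ _).trans ?_
    refine sum_le_sum fun f hf => ?_
    refine (measureReal_biUnion_finset_le _ _).trans ?_
    exact sum_le_sum fun c hc => hbox q hq f hf c hc
  have hC := hS (⌈R⌉₊ + 1)
  have hsum : ∑ q ∈ Icc 1 ⌊R⌋₊, ∑ f ∈ Fq k q,
      ∑ c ∈ Dc k (⌈R⌉₊ + 1), G * ((q : ℝ) ^ (-κ) * Lam (fun i => ((c i : ℤ) : ℝ)) ^ (-κ)) ≤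
      G * (C₂ * C₃) := by
    have h6 : ∀ q ∈ Icc 1 ⌊R⌋₊, ∑ f ∈ Fq k q, ∑ c ∈ Dc k (⌈R⌉₊ + 1),
        G * ((q : ℝ) ^ (-κ) * Lam (fun i => ((c i : ℤ) : ℝ)) ^ (-κ)) ≤
        G * C₃ * (q : ℝ) ^ (-(κ - k + 1)) := by
      intro q hq
      rw [mem_Icc] at hq
      have hq0 : (0 : ℝ) < q := by exact_mod_cast hq.1
      rw [sum_const, card_Fq k q (by omega), nsmul_eq_mul, ← mul_sum, ← mul_sum]
      have h7 : ((q ^ (k - 1) : ℕ) : ℝ) * (q : ℝ) ^ (-κ) = (q : ℝ) ^ (-(κ - k + 1)) := by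
        push_cast
        rw [← Real.rpow_natCast, ← Real.rpow_add hq0, Nat.cast_sub (by omega)]
        congr 1
        push_cast
        ring
      calc ((q ^ (k - 1) : ℕ) : ℝ) * (G * ((q : ℝ) ^ (-κ) *
            ∑ c ∈ Dc k (⌈R⌉₊ + 1), Lam (fun i => ((c i : ℤ) : ℝ)) ^ (-κ)))
          = G * (((q ^ (k - 1) : ℕ) : ℝ) * (q : ℝ) ^ (-κ)) *
            ∑ c ∈ Dc k (⌈R⌉₊ + 1), Lam (fun i => ((c i : ℤ) : ℝ)) ^ (-κ) := by ring
        _ ≤ G * (((q ^ (k - 1) : ℕ) : ℝ) * (q : ℝ) ^ (-κ)) * C₃ :=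
            mul_le_mul_of_nonneg_left hC (by positivity)
        _ = G * C₃ * (q : ℝ) ^ (-(κ - k + 1)) := by
            rw [h7]
            ring
    refine (sum_le_sum h6).trans ?_
    rw [← mul_sum]
    have hGC : 0 ≤ G * C₃ := by positivity
    calc G * C₃ * ∑ q ∈ Icc 1 ⌊R⌋₊, (q : ℝ) ^ (-(κ - k + 1)) ≤ G * C₃ * C₂ :=
          mul_le_mul_of_nonneg_left (hQ ⌊R⌋₊) hGC
      _ = G * (C₂ * C₃) := by ring
  calc (N : ℝ) ^ (KN k) * volume.real (WS k N R M')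
      ≤ (N : ℝ) ^ (KN k) * (G * (C₂ * C₃)) :=
        mul_le_mul_of_nonneg_left (hvol.trans hsum) hNK.le
    _ = C₁ * C₂ * C₃ * R ^ ε * M' ^ s := by
        rw [hG]
        field_simp

end Pool.Agent.H50.LVE
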