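import Pool.Agent.H50.LVE.LOC
import Pool.Agent.H50.LVE.ME
import Pool.Agent.H61.LVP.SPL
import Pool.Agent.H33.LVE.MVB
import Pool.Agent.H33.LVE.PCE
import Pool.Agent.H33.LVE.PIE
import Pool.Agent.H33.LVE.TAI
import Pool.Agent.H33.LVE.BND
import Pool.Agent.H60.LVE.LAG
import Pool.Agent.H60.LVE.DEC
import Pool.Agent.H60.LVE.MKV
import Pool.Agent.H60.LVE.SMB
import Pool.Agent.H51.LVE.PAR
import Pool.Agent.H51.LVE.FUN
import Pool.Agent.H23.LVE.SUB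
import Pool.Agent.H23.LVE.HYP
import Pool.Agent.H7.LVE.CEL
import Pool.Agent.H7.LVE.COV
import Pool.Agent.H7.LVE.BXM
import Pool.Agent.H57.LVE.GIS
import Pool.Agent.H57.LVE.AMD
import Pool.Agent.H57.LVE.ARC
import Pool.Agent.H57.LVE.QSM
import Pool.Agent.H2.LVE.SMA

/-!
# LV part (e): the measure of the points seen by the functional, from the arithmetic majorant
(helper50, with helpers 2, 7, 23, 33, 51, 57, 60, 61)
-/

set_option autoImplicit false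

open Pool.Agent.H24.LV Pool.Agent.H50.LV

namespace Pool.Agent.H50.LVE

theorem c_SUB : T_SUB := Pool.Agent.H23.LVE.pf_SUB
theorem c_SPL : T_SPL := Pool.Agent.H61.LVP.pf_SPL
theorem c_LAG : T_LAG := Pool.Agent.H60.LVE.pf_LAG
theorem c_PIE : T_PIE := Pool.Agent.H33.LVE.pf_PIE Pool.Agent.H51.LVE.pf_PAR
theorem c_PCE : T_PCE := Pool.Agent.H33.LVE.pf_PCE c_SPL Pool.Agent.H33.LVE.pf_MVB
theorem c_DEC : T_DEC := Pool.Agent.H60.LVE.pf_DEC c_SPL c_LAG c_PIE c_SUB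
theorem c_HYP : T_HYP := Pool.Agent.H23.LVE.pf_HYP c_PCE c_PIE c_SUB
theorem c_TAI : T_TAI := Pool.Agent.H33.LVE.pf_TAI c_SPL c_PIE c_SUB
theorem c_CEL : T_CEL := Pool.Agent.H7.LVE.pf_CEL
theorem c_RMC : T_RMC := Pool.Agent.H60.LVE.pf_RMC c_DEC c_HYP c_TAI c_CEL
theorem c_BND : T_BND := Pool.Agent.H33.LVE.pf_BND Pool.Agent.H2.LVE.pf_SMA
  Pool.Agent.H60.LVE.pf_SMB
theorem c_QSM : T_QSM := Pool.Agent.H57.LVE.pf_QSM
theorem c_COV : T_COV := Pool.Agent.H7.LVE.pf_COV Pool.Agent.H57.LVE.pf_AMD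
theorem c_BXM : T_BXM := Pool.Agent.H7.LVE.pf_BXM Pool.Agent.H57.LVE.pf_ARC
theorem c_CSM : T_CSM := Pool.Agent.H60.LVE.pf_CSM c_QSM

/-- the measure of the points seen by the functional -/
theorem me (h : Pool.Agent.H26.LV.T_ARI) : T_ME :=
  pf_ME (pf_LOC c_RMC Pool.Agent.H57.LVE.pf_GIS Pool.Agent.H51.LVE.pf_FUN c_BND
    Pool.Agent.H60.LVE.pf_MKV Pool.Agent.H60.LVE.pf_CIN h) c_QSM c_CSM c_COV c_BXM

/-- the interface of the main theorem -/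
theorem e_me (h : Pool.Agent.H26.LV.T_ARI) : E_ME := fun k hk s ε hs _ hε => me h k hk s ε hs hε

end Pool.Agent.H50.LVE
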