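import Pool.Agent.H50.LVE.All
import Pool.Agent.H26.LV.AriAll

/-!
# LV part (e), closed (helper50)
-/

set_option autoImplicit false

namespace Pool.Agent.H50.LVE

/-- the interface of the main theorem, unconditional -/
theorem e_me_closed : Pool.Agent.H24.LV.E_ME := e_me Pool.Agent.H26.LV.ari

end Pool.Agent.H50.LVE
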